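import Mathlib

/-!
MP_9f3825_pr: generalized gamma convolutions. The definitions (`GammaSum`, `IsGGC`), the continuity
theorem for Laplace transforms, gamma sums, and the weak limit form of the Laplace form.
-/

set_option autoImplicit false

open MeasureTheory ProbabilityTheory Filter Topology Set
open scoped ENNReal NNReal

namespace Pool.Agent.Helper79.OWN.GGC

/-- The laws of the sums of finitely many independent gamma random variables (`gammaMeasure k t`:
shape `k`, rate `t`; the law of a sum of two independent random variables is the convolution). -/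
inductive GammaSum : Measure ℝ → Prop
  | single (k t : ℝ) : 0 < k → 0 < t → GammaSum (gammaMeasure k t)
  | add (μ : Measure ℝ) (k t : ℝ) : GammaSum μ → 0 < k → 0 < t →
      GammaSum (μ ∗ gammaMeasure k t)

/-- `μ` is the law of a positive random variable which is a generalized gamma convolution with
drift `a` and Thorin measure `U`. -/
structure IsGGC (μ : Measure ℝ) (a : ℝ) (U : Measure ℝ) : Prop where
  prob : IsProbabilityMeasure μ
  pos : μ (Iic 0) = 0
  drift : 0 ≤ a
  supp : U (Iic 0) = 0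
  log_int : ∫⁻ t in Ioc 0 1, ENNReal.ofReal |Real.log t| ∂U < ∞
  inv_int : ∫⁻ t in Ioi 1, ENNReal.ofReal t⁻¹ ∂U < ∞
  laplace : ∀ l : ℝ, 0 ≤ l →
    ∫ x, Real.exp (-(l * x)) ∂μ = Real.exp (-(a * l) - ∫ t in Ioi 0, Real.log (1 + l / t) ∂U)

/-! ### Laplace transforms -/

lemma integrable_exp {μ : Measure ℝ} [IsProbabilityMeasure μ] (hμ : ∀ᵐ x ∂μ, 0 ≤ x) {l : ℝ}
    (hl : 0 ≤ l) : Integrable (fun x => Real.exp (-(l * x))) μ := by
  apply Integrable.mono' (integrable_const (1 : ℝ))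
  · exact Measurable.aestronglyMeasurable (by fun_prop)
  · filter_upwards [hμ] with x hx
    rw [Real.norm_eq_abs, abs_of_pos (Real.exp_pos _), Real.exp_le_one_iff]
    have := mul_nonneg hl hx
    linarith

/-- a continuous function of `exp (-x)` -/
lemma tendsto_of_exp {μ : Measure ℝ} [IsProbabilityMeasure μ] (hμ : ∀ᵐ x ∂μ, 0 ≤ x)
    {ν : ℕ → Measure ℝ} (hp : ∀ n, IsProbabilityMeasure (ν n)) (hν : ∀ n, ∀ᵐ x ∂(ν n), 0 ≤ x)
    (h : ∀ k : ℕ, Tendsto (fun n => ∫ x, Real.exp (-(k * x)) ∂(ν n)) atTop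
      (𝓝 (∫ x, Real.exp (-(k * x)) ∂μ)))
    {f : ℝ → ℝ} (hf : Continuous f) :
    Tendsto (fun n => ∫ x, f (Real.exp (-x)) ∂(ν n)) atTop (𝓝 (∫ x, f (Real.exp (-x)) ∂μ)) := by
  have hI : ∀ x : ℝ, 0 ≤ x → Real.exp (-x) ∈ Icc (0 : ℝ) 1 := fun x hx =>
    ⟨(Real.exp_pos _).le, Real.exp_le_one_iff.2 (by linarith)⟩
  have hint : ∀ (g : ℝ → ℝ) (_ : Continuous g) (ρ : Measure ℝ) (_ : IsProbabilityMeasure ρ)
      (_ : ∀ᵐ x ∂ρ, 0 ≤ x), Integrable (fun x => g (Real.exp (-x))) ρ := by
    intro g hg ρ _ hρ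
    obtain ⟨C, hC⟩ : ∃ C, ∀ u ∈ Icc (0 : ℝ) 1, ‖g u‖ ≤ C :=
      isCompact_Icc.exists_bound_of_continuousOn hg.continuousOn
    apply Integrable.mono' (integrable_const C)
    · exact (hg.comp (by fun_prop)).aestronglyMeasurable
    · filter_upwards [hρ] with x hx using hC _ (hI x hx)
  have hpoly : ∀ p : Polynomial ℝ, Tendsto (fun n => ∫ x, p.eval (Real.exp (-x)) ∂(ν n)) atTop
      (𝓝 (∫ x, p.eval (Real.exp (-x)) ∂μ)) := by
    intro p
    have h1 : ∀ (ρ : Measure ℝ) (_ : IsProbabilityMeasure ρ) (_ : ∀ᵐ x ∂ρ, 0 ≤ x),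
        ∫ x, p.eval (Real.exp (-x)) ∂ρ =
        ∑ i ∈ Finset.range (p.natDegree + 1), p.coeff i * ∫ x, Real.exp (-(i * x)) ∂ρ := by
      intro ρ _ hρ
      have h2 : ∀ x : ℝ, p.eval (Real.exp (-x)) =
          ∑ i ∈ Finset.range (p.natDegree + 1), p.coeff i * Real.exp (-(i * x)) := by
        intro x
        rw [Polynomial.eval_eq_sum_range]
        refine Finset.sum_congr rfl fun i _ => ?_
        rw [← Real.exp_nat_mul]
        congr 2
        ring
      simp_rw [h2]
      rw [integral_finsetSum]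
      · refine Finset.sum_congr rfl fun i _ => ?_
        rw [integral_const_mul]
      · intro i _
        exact (integrable_exp hρ (Nat.cast_nonneg i)).const_mul _
    rw [h1 μ inferInstance hμ]
    simp_rw [fun n => h1 (ν n) (hp n) (hν n)]
    exact tendsto_finsetSum _ fun i _ => (h i).const_mul _
  rw [Metric.tendsto_atTop]
  intro ε hε
  obtain ⟨p, hpε⟩ := exists_polynomial_near_of_continuousOn 0 1 f hf.continuousOn (ε / 3)
    (by positivity)
  obtain ⟨N, hN⟩ := (Metric.tendsto_atTop.1 (hpoly p)) (ε / 3) (by positivity)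
  refine ⟨N, fun n hn => ?_⟩
  have e0 : ∀ (ρ : Measure ℝ) (_ : IsProbabilityMeasure ρ) (_ : ∀ᵐ x ∂ρ, 0 ≤ x),
      |∫ x, f (Real.exp (-x)) ∂ρ - ∫ x, p.eval (Real.exp (-x)) ∂ρ| ≤ ε / 3 := by
    intro ρ _ hρ
    rw [← integral_sub (hint f hf ρ inferInstance hρ) (hint _ p.continuous ρ inferInstance hρ),
      ← Real.norm_eq_abs]
    refine (norm_integral_le_of_norm_le_const (C := ε / 3) ?_).trans ?_
    · filter_upwards [hρ] with x hx
      rw [Real.norm_eq_abs, abs_sub_comm]
      exact (hpε _ (hI x hx)).le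
    · simp
  have e1 := e0 (ν n) (hp n) (hν n)
  have e2 := e0 μ inferInstance hμ
  have e3 := hN n hn
  rw [Real.dist_eq] at e3 ⊢
  rw [abs_le] at e1 e2
  rw [abs_lt] at e3 ⊢
  constructor <;> linarith [e1.1, e1.2, e2.1, e2.2, e3.1, e3.2]

/-- cut-off: `0` for `u ≤ δ`, `1` for `u ≥ 2δ` -/
noncomputable def cu (δ u : ℝ) : ℝ := min 1 (max 0 ((u - δ) / δ))

lemma continuous_cu (δ : ℝ) : Continuous (cu δ) := by unfold cu; fun_prop
lemma cu_nonneg (δ u : ℝ) : 0 ≤ cu δ u := le_min zero_le_one (le_max_left _ _)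
lemma cu_le_one (δ u : ℝ) : cu δ u ≤ 1 := min_le_left _ _
lemma cu_zero {δ u : ℝ} (hδ : 0 < δ) (hu : u ≤ δ) : cu δ u = 0 := by
  unfold cu
  have : (u - δ) / δ ≤ 0 := div_nonpos_of_nonpos_of_nonneg (by linarith) hδ.le
  rw [max_eq_left this]
  simp

/-- **Continuity theorem** for Laplace transforms on `[0, ∞)`, at the natural numbers. -/
theorem tendsto_weak {μ : Measure ℝ} [IsProbabilityMeasure μ] (hμ : ∀ᵐ x ∂μ, 0 ≤ x)
    {ν : ℕ → Measure ℝ} (hp : ∀ n, IsProbabilityMeasure (ν n)) (hν : ∀ n, ∀ᵐ x ∂(ν n), 0 ≤ x)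
    (h : ∀ k : ℕ, Tendsto (fun n => ∫ x, Real.exp (-(k * x)) ∂(ν n)) atTop
      (𝓝 (∫ x, Real.exp (-(k * x)) ∂μ)))
    (f : BoundedContinuousFunction ℝ ℝ) :
    Tendsto (fun n => ∫ x, f x ∂(ν n)) atTop (𝓝 (∫ x, f x ∂μ)) := by
  obtain ⟨C, hC0, hC⟩ : ∃ C, 0 < C ∧ ∀ x, |f x| ≤ C :=
    ⟨‖f‖ + 1, by positivity, fun x => (f.norm_coe_le_norm x).trans (by linarith)⟩
  have hc1 : ∀ (δ : ℝ) (ρ : Measure ℝ) (_ : IsProbabilityMeasure ρ),
      Integrable (fun x => cu δ (Real.exp (-x))) ρ := by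
    intro δ ρ _
    apply Integrable.mono' (integrable_const (1 : ℝ))
    · exact ((continuous_cu δ).comp (by fun_prop)).aestronglyMeasurable
    · filter_upwards with x
      rw [Real.norm_eq_abs, abs_of_nonneg (cu_nonneg _ _)]
      exact cu_le_one _ _
  -- the cut-off mass
  have hlim : Tendsto (fun m : ℕ => ∫ x, (1 - cu (1 / ((m : ℝ) + 1)) (Real.exp (-x))) ∂μ) atTop
      (𝓝 0) := by
    have h0 : (0 : ℝ) = ∫ x : ℝ, (0 : ℝ) ∂μ := by simp
    rw [h0]
    apply tendsto_integral_of_dominated_convergence (fun _ => (1 : ℝ))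
    · intro m
      exact (continuous_const.sub ((continuous_cu _).comp (by fun_prop))).aestronglyMeasurable
    · exact integrable_const _
    · intro m
      filter_upwards with x
      rw [Real.norm_eq_abs, abs_of_nonneg (by linarith [cu_le_one (1 / ((m : ℝ) + 1)) (Real.exp (-x))])]
      linarith [cu_nonneg (1 / ((m : ℝ) + 1)) (Real.exp (-x))]
    · filter_upwards with x
      apply tendsto_const_nhds.congr'
      have h1 := tendsto_one_div_add_atTop_nhds_zero_nat (𝕜 := ℝ)
      filter_upwards [h1.eventually_lt_const (show (0 : ℝ) < Real.exp (-x) / 2 by positivity)]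
        with m hm
      have hpos : (0 : ℝ) < 1 / ((m : ℝ) + 1) := by positivity
      unfold cu
      have h2 : (1 : ℝ) ≤ (Real.exp (-x) - 1 / ((m : ℝ) + 1)) / (1 / ((m : ℝ) + 1)) := by
        rw [le_div_iff₀ hpos]
        linarith
      rw [max_eq_right (by linarith), min_eq_left h2]
      simp
  rw [Metric.tendsto_atTop]
  intro ε hε
  obtain ⟨m, hm⟩ := (hlim.eventually_lt_const (show (0 : ℝ) < ε / (8 * C) by positivity)).exists
  set δ : ℝ := 1 / ((m : ℝ) + 1) with hδ
  have hδ0 : 0 < δ := by positivity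
  -- the truncated function
  set g : ℝ → ℝ := fun u => cu δ u * f (-Real.log (max u δ)) with hg
  have hgc : Continuous g := by
    apply (continuous_cu δ).mul
    apply f.continuous.comp
    apply Continuous.neg
    apply Continuous.log (by fun_prop)
    intro u
    have : δ ≤ max u δ := le_max_right _ _
    linarith
  have hge : ∀ x, g (Real.exp (-x)) = cu δ (Real.exp (-x)) * f x := by
    intro x
    by_cases hx : Real.exp (-x) ≤ δ
    · simp only [hg, cu_zero hδ0 hx, zero_mul]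
    · push Not at hx
      simp only [hg, max_eq_left hx.le, Real.log_exp, neg_neg]
  have t1 := tendsto_of_exp hμ hp hν h hgc
  have t2 := tendsto_of_exp hμ hp hν h ((continuous_const (y := (1 : ℝ))).sub (continuous_cu δ))
  simp only [hge] at t1
  obtain ⟨N1, hN1⟩ := Metric.tendsto_atTop.1 t1 (ε / 2) (by positivity)
  obtain ⟨N2, hN2⟩ := eventually_atTop.1 (t2.eventually_lt_const hm)
  refine ⟨max N1 N2, fun n hn => ?_⟩
  have key : ∀ (ρ : Measure ℝ) (_ : IsProbabilityMeasure ρ),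
      ∫ x, (1 - cu δ (Real.exp (-x))) ∂ρ < ε / (8 * C) →
      |∫ x, f x ∂ρ - ∫ x, cu δ (Real.exp (-x)) * f x ∂ρ| ≤ ε / 8 := by
    intro ρ _ hρ
    have hfi : Integrable (fun x => f x) ρ := f.integrable ρ
    have hci : Integrable (fun x => cu δ (Real.exp (-x)) * f x) ρ := by
      apply Integrable.mono' (integrable_const C)
      · exact (((continuous_cu δ).comp (by fun_prop)).mul f.continuous).aestronglyMeasurable
      · filter_upwards with x
        rw [Real.norm_eq_abs, abs_mul, abs_of_nonneg (cu_nonneg _ _)]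
        have h1 := cu_le_one δ (Real.exp (-x))
        have h2 := cu_nonneg δ (Real.exp (-x))
        have h3 := hC x
        have h4 := abs_nonneg (f x)
        nlinarith
    rw [← integral_sub hfi hci, ← Real.norm_eq_abs]
    calc ‖∫ x, (f x - cu δ (Real.exp (-x)) * f x) ∂ρ‖
        ≤ ∫ x, C * (1 - cu δ (Real.exp (-x))) ∂ρ := by
          apply norm_integral_le_of_norm_le
          · exact ((integrable_const _).sub (hc1 δ ρ inferInstance)).const_mul _
          · filter_upwards with x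
            have e : f x - cu δ (Real.exp (-x)) * f x = (1 - cu δ (Real.exp (-x))) * f x := by ring
            rw [e, Real.norm_eq_abs, abs_mul,
              abs_of_nonneg (by linarith [cu_le_one δ (Real.exp (-x))]), mul_comm]
            exact mul_le_mul_of_nonneg_right (hC x) (by linarith [cu_le_one δ (Real.exp (-x))])
      _ = C * ∫ x, (1 - cu δ (Real.exp (-x))) ∂ρ := integral_const_mul _ _
      _ ≤ C * (ε / (8 * C)) := by gcongr
      _ = ε / 8 := by field_simp
  have k1 := key (ν n) (hp n) (hN2 n ((le_max_right _ _).trans hn))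
  have k2 := key μ inferInstance hm
  have k3 := hN1 n ((le_max_left _ _).trans hn)
  rw [Real.dist_eq] at k3 ⊢
  rw [abs_le] at k1 k2
  rw [abs_lt] at k3 ⊢
  constructor <;> linarith [k1.1, k1.2, k2.1, k2.2, k3.1, k3.2]

/-! ### Gamma laws and their sums -/

lemma gamma_ae {k t : ℝ} : ∀ᵐ x ∂(gammaMeasure k t), 0 ≤ x := by
  have h : gammaMeasure k t (Iio 0) = 0 := by
    rw [gammaMeasure, withDensity_apply _ measurableSet_Iio]
    exact lintegral_gammaPDF_of_nonpos le_rfl
  rw [ae_iff]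
  convert h using 2
  ext x
  simp

lemma gamma_laplace {k t l : ℝ} (hk : 0 < k) (ht : 0 < t) (hl : 0 ≤ l) :
    ∫ x, Real.exp (-(l * x)) ∂(gammaMeasure k t) = Real.exp (-(k * Real.log (1 + l / t))) := by
  have hm : Measurable (gammaPDF k t) := by unfold gammaPDF; fun_prop
  rw [gammaMeasure, integral_withDensity_eq_integral_toReal_smul hm (by
    filter_upwards with x; exact ENNReal.ofReal_lt_top)]
  have e1 : ∀ x : ℝ, (gammaPDF k t x).toReal • Real.exp (-(l * x)) =
      (Ici (0 : ℝ)).indicator (fun x => (t ^ k / Real.Gamma k) *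
        (x ^ (k - 1) * Real.exp (-((t + l) * x)))) x := by
    intro x
    rw [gammaPDF, ENNReal.toReal_ofReal (gammaPDFReal_nonneg hk ht x), smul_eq_mul, gammaPDFReal]
    by_cases hx : 0 ≤ x
    · rw [if_pos hx, indicator_of_mem (mem_Ici.2 hx)]
      have e2 : Real.exp (-((t + l) * x)) = Real.exp (-(t * x)) * Real.exp (-(l * x)) := by
        rw [← Real.exp_add]; congr 1; ring
      rw [e2]
      ring
    · rw [if_neg hx, indicator_of_notMem (by simpa using hx), zero_mul]
  simp_rw [e1]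
  rw [integral_indicator measurableSet_Ici, integral_Ici_eq_integral_Ioi, integral_const_mul,
    Real.integral_rpow_mul_exp_neg_mul_Ioi hk (by linarith : 0 < t + l)]
  have hG := Real.Gamma_pos_of_pos hk
  have e3 : Real.exp (-(k * Real.log (1 + l / t))) = (t / (t + l)) ^ k := by
    rw [Real.rpow_def_of_pos (by positivity)]
    congr 1
    have e4 : 1 + l / t = (t / (t + l))⁻¹ := by field_simp
    rw [e4, Real.log_inv]
    ring
  rw [e3, Real.div_rpow ht.le (by linarith), one_div, Real.inv_rpow (by linarith)]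
  field_simp

lemma conv_ae {μ ν : Measure ℝ} [IsProbabilityMeasure μ] [IsProbabilityMeasure ν]
    (hμ : ∀ᵐ x ∂μ, 0 ≤ x) (hν : ∀ᵐ x ∂ν, 0 ≤ x) : ∀ᵐ x ∂(μ ∗ ν), 0 ≤ x := by
  have hms : MeasurableSet {x : ℝ | 0 ≤ x} := measurableSet_Ici
  unfold Measure.conv
  rw [ae_map_iff (by fun_prop) hms]
  have h1 : ∀ᵐ z ∂(μ.prod ν), 0 ≤ z.1 :=
    Measure.quasiMeasurePreserving_fst.ae hμ
  have h2 : ∀ᵐ z ∂(μ.prod ν), 0 ≤ z.2 :=
    Measure.quasiMeasurePreserving_snd.ae hν
  filter_upwards [h1, h2] with z hz1 hz2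
  exact add_nonneg hz1 hz2

lemma conv_laplace {μ ν : Measure ℝ} [IsProbabilityMeasure μ] [IsProbabilityMeasure ν]
    (hμ : ∀ᵐ x ∂μ, 0 ≤ x) (hν : ∀ᵐ x ∂ν, 0 ≤ x) {l : ℝ} (hl : 0 ≤ l) :
    ∫ x, Real.exp (-(l * x)) ∂(μ ∗ ν) =
      (∫ x, Real.exp (-(l * x)) ∂μ) * ∫ x, Real.exp (-(l * x)) ∂ν := by
  rw [integral_conv (integrable_exp (conv_ae hμ hν) hl)]
  have e : ∀ x y : ℝ, Real.exp (-(l * (x + y))) = Real.exp (-(l * x)) * Real.exp (-(l * y)) := by
    intro x y
    rw [← Real.exp_add]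
    congr 1
    ring
  simp_rw [e, integral_const_mul, integral_mul_const]

lemma GammaSum.prob {μ : Measure ℝ} (h : GammaSum μ) : IsProbabilityMeasure μ := by
  induction h with
  | single k t hk ht => exact isProbabilityMeasure_gammaMeasure hk ht
  | add μ k t _ hk ht ih =>
    have := isProbabilityMeasure_gammaMeasure hk ht
    infer_instance

lemma GammaSum.ae {μ : Measure ℝ} (h : GammaSum μ) : ∀ᵐ x ∂μ, 0 ≤ x := by
  induction h with
  | single k t hk ht => exact gamma_ae
  | add μ k t hμ hk ht ih =>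
    have := isProbabilityMeasure_gammaMeasure hk ht
    have := hμ.prob
    exact conv_ae ih gamma_ae

/-- gamma sums with prescribed finitely many nonnegative shapes -/
lemma exists_gammaSum {ι : Type} (S : Finset ι) (k t : ι → ℝ) (hk : ∀ i ∈ S, 0 ≤ k i)
    (ht : ∀ i ∈ S, 0 < t i) {k0 t0 : ℝ} (hk0 : 0 < k0) (ht0 : 0 < t0) :
    ∃ μ, GammaSum μ ∧ ∀ l : ℝ, 0 ≤ l → ∫ x, Real.exp (-(l * x)) ∂μ =
      Real.exp (-(k0 * Real.log (1 + l / t0) + ∑ i ∈ S, k i * Real.log (1 + l / t i))) := by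
  classical
  induction S using Finset.induction_on with
  | empty =>
    refine ⟨_, GammaSum.single k0 t0 hk0 ht0, fun l hl => ?_⟩
    rw [gamma_laplace hk0 ht0 hl, Finset.sum_empty, add_zero]
  | insert a S ha ih =>
    obtain ⟨μ, hμ, hlap⟩ := ih (fun i hi => hk i (Finset.mem_insert_of_mem hi))
      (fun i hi => ht i (Finset.mem_insert_of_mem hi))
    rcases (hk a (Finset.mem_insert_self a S)).eq_or_lt with h0 | h0
    · refine ⟨μ, hμ, fun l hl => ?_⟩
      rw [hlap l hl, Finset.sum_insert ha, ← h0, zero_mul, zero_add]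
    · have ha' := ht a (Finset.mem_insert_self a S)
      refine ⟨_, GammaSum.add μ (k a) (t a) hμ h0 ha', fun l hl => ?_⟩
      have := isProbabilityMeasure_gammaMeasure h0 ha'
      have := hμ.prob
      rw [conv_laplace hμ.ae gamma_ae hl, hlap l hl, gamma_laplace h0 ha' hl, ← Real.exp_add,
        Finset.sum_insert ha]
      congr 1
      ring

/-! ### Thorin measures -/

lemma log_nonneg' {l t : ℝ} (hl : 0 ≤ l) (ht : 0 < t) : 0 ≤ Real.log (1 + l / t) := by
  apply Real.log_nonneg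
  have : 0 ≤ l / t := by positivity
  linarith

lemma ae_pos {U : Measure ℝ} (h0 : U (Iic 0) = 0) : ∀ᵐ t ∂U, 0 < t := by
  rw [ae_iff]
  convert h0 using 2
  ext t
  simp

/-- finite mass near zero -/
lemma mass_lt_top {U : Measure ℝ} (h0 : U (Iic 0) = 0)
    (hi : Integrable (fun t : ℝ => Real.log (1 + 1 / t)) U) (T : ℝ) : U (Iic T) < ∞ := by
  rcases le_or_gt T 0 with hT | hT
  · exact (measure_mono (Iic_subset_Iic.2 hT)).trans_lt (by rw [h0]; exact ENNReal.zero_lt_top)
  · have hε : 0 < Real.log (1 + 1 / T) := Real.log_pos (by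
      have : 0 < 1 / T := by positivity
      linarith)
    have h1 := hi.measure_norm_ge_lt_top hε
    refine (measure_mono_ae ?_).trans_lt h1
    filter_upwards [ae_pos h0] with t ht htT
    have htT' : t ≤ T := htT
    show Real.log (1 + 1 / T) ≤ ‖Real.log (1 + 1 / t)‖
    rw [Real.norm_eq_abs, abs_of_nonneg (log_nonneg' zero_le_one ht)]
    apply Real.log_le_log (by positivity)
    have := one_div_le_one_div_of_le ht htT'
    linarith

/-- integrability of `log (1 + l / t)` -/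
lemma integrable_log {U : Measure ℝ} (h0 : U (Iic 0) = 0)
    (hi : Integrable (fun t : ℝ => Real.log (1 + 1 / t)) U) {l : ℝ} (hl : 0 ≤ l) :
    Integrable (fun t : ℝ => Real.log (1 + l / t)) U := by
  apply Integrable.mono' (hi.const_mul (max 1 l))
  · exact Measurable.aestronglyMeasurable (by fun_prop)
  · filter_upwards [ae_pos h0] with t ht
    rw [Real.norm_eq_abs, abs_of_nonneg (log_nonneg' hl ht)]
    have h1 : (1 : ℝ) ≤ max 1 l := le_max_left _ _
    have h2 : 1 + l / t ≤ (1 + 1 / t) ^ (max 1 l) := by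
      have h3 : 1 + max 1 l * (1 / t) ≤ (1 + 1 / t) ^ (max 1 l) := by
        apply one_add_mul_self_le_rpow_one_add _ h1
        have : 0 < 1 / t := by positivity
        linarith
      have h4 : l / t ≤ max 1 l * (1 / t) := by
        rw [div_eq_mul_one_div]
        exact mul_le_mul_of_nonneg_right (le_max_right _ _) (by positivity)
      linarith
    have h5 : 0 < 1 + l / t := by positivity
    calc Real.log (1 + l / t) ≤ Real.log ((1 + 1 / t) ^ (max 1 l)) := Real.log_le_log h5 h2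
      _ = _ := Real.log_rpow (by positivity) _

/-! ### The weak limit form -/

/-- simple functions below `t⁻¹` -/
noncomputable def sf (n : ℕ) : SimpleFunc ℝ ℝ :=
  (SimpleFunc.eapprox (fun t : ℝ => ENNReal.ofReal t⁻¹) n).map ENNReal.toReal

lemma sf_nonneg (n : ℕ) (t : ℝ) : 0 ≤ sf n t := by
  unfold sf
  rw [SimpleFunc.map_apply]
  exact ENNReal.toReal_nonneg

lemma meas_inv : Measurable (fun t : ℝ => ENNReal.ofReal t⁻¹) := by fun_prop

lemma sf_le (n : ℕ) {t : ℝ} (ht : 0 < t) : sf n t ≤ t⁻¹ := by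
  unfold sf
  rw [SimpleFunc.map_apply]
  have h1 : SimpleFunc.eapprox (fun t : ℝ => ENNReal.ofReal t⁻¹) n t ≤ ENNReal.ofReal t⁻¹ := by
    have h2 := SimpleFunc.iSup_eapprox_apply meas_inv t
    rw [← h2]
    exact le_iSup (fun n => SimpleFunc.eapprox (fun t : ℝ => ENNReal.ofReal t⁻¹) n t) n
  have h3 := ENNReal.toReal_mono ENNReal.ofReal_ne_top h1
  rwa [ENNReal.toReal_ofReal (inv_nonneg.2 ht.le)] at h3

lemma sf_tendsto {t : ℝ} (ht : 0 < t) : Tendsto (fun n => sf n t) atTop (𝓝 t⁻¹) := by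
  unfold sf
  have h1 := SimpleFunc.tendsto_eapprox meas_inv t
  have h2 := (ENNReal.tendsto_toReal (ENNReal.ofReal_ne_top (r := t⁻¹))).comp h1
  rw [ENNReal.toReal_ofReal (inv_nonneg.2 ht.le)] at h2
  exact h2

lemma sf_fin {U : Measure ℝ} (h0 : U (Iic 0) = 0)
    (hi : Integrable (fun t : ℝ => Real.log (1 + 1 / t)) U) (n : ℕ) : Integrable (sf n) U := by
  rw [SimpleFunc.integrable_iff_finMeasSupp, SimpleFunc.finMeasSupp_iff]
  intro y hy
  rcases lt_or_gt_of_ne hy with h | h
  · have : (sf n) ⁻¹' {y} = ∅ := by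
      ext t
      simp only [mem_preimage, mem_singleton_iff, mem_empty_iff_false, iff_false]
      intro e
      have := sf_nonneg n t
      linarith
    rw [this]
    simp
  · refine (measure_mono_ae ?_).trans_lt (mass_lt_top h0 hi y⁻¹)
    filter_upwards [ae_pos h0] with t ht hty
    have e1 : sf n t = y := hty
    have e2 := sf_le n ht
    rw [e1] at e2
    show t ≤ y⁻¹
    exact (le_inv_comm₀ h ht).1 e2

/-- the integral of `log (1 + l * sf n t)` -/
lemma sf_sum {U : Measure ℝ} (h0 : U (Iic 0) = 0)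
    (hi : Integrable (fun t : ℝ => Real.log (1 + 1 / t)) U) (n : ℕ) {l : ℝ} (_hl : 0 ≤ l) :
    ∫ t, Real.log (1 + l * sf n t) ∂U =
      ∑ x ∈ (sf n).range, U.real ((sf n) ⁻¹' {x}) * Real.log (1 + l * x) := by
  have h1 := sf_fin h0 hi n
  have hg : (fun x : ℝ => Real.log (1 + l * x)) 0 = 0 := by simp
  have h2 := SimpleFunc.map_integral (sf n) (fun x : ℝ => Real.log (1 + l * x)) h1 hg
  have h3 : Integrable ((sf n).map (fun x : ℝ => Real.log (1 + l * x))) U := by
    rw [SimpleFunc.integrable_iff_finMeasSupp] at h1 ⊢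
    exact h1.map hg
  have h4 := SimpleFunc.integral_eq_integral _ h3
  rw [h2] at h4
  simp only [smul_eq_mul] at h4
  rw [h4]
  rfl

lemma sf_lim {U : Measure ℝ} (h0 : U (Iic 0) = 0)
    (hi : Integrable (fun t : ℝ => Real.log (1 + 1 / t)) U) {l : ℝ} (hl : 0 ≤ l) :
    Tendsto (fun n => ∫ t, Real.log (1 + l * sf n t) ∂U) atTop
      (𝓝 (∫ t, Real.log (1 + l / t) ∂U)) := by
  apply tendsto_integral_of_dominated_convergence (fun t => Real.log (1 + l / t))
  · intro n
    have : Measurable (sf n) := (sf n).measurable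
    exact Measurable.aestronglyMeasurable (by fun_prop)
  · exact integrable_log h0 hi hl
  · intro n
    filter_upwards [ae_pos h0] with t ht
    have e1 := sf_le n ht
    have e2 := sf_nonneg n t
    have e3 : 0 ≤ l * sf n t := mul_nonneg hl e2
    rw [Real.norm_eq_abs, abs_of_nonneg (Real.log_nonneg (by linarith))]
    apply Real.log_le_log (by linarith)
    rw [div_eq_mul_inv]
    have := mul_le_mul_of_nonneg_left e1 hl
    linarith
  · filter_upwards [ae_pos h0] with t ht
    have e1 : Tendsto (fun n => 1 + l * sf n t) atTop (𝓝 (1 + l / t)) := by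
      rw [div_eq_mul_inv]
      exact ((sf_tendsto ht).const_mul l).const_add 1
    have e2 : 0 ≤ l / t := by positivity
    exact e1.log (by linarith)

/-- weak approximation by gamma sums -/
theorem weak_limit {μ : Measure ℝ} [IsProbabilityMeasure μ] (hμ : ∀ᵐ x ∂μ, 0 ≤ x) {a : ℝ}
    (ha : 0 < a) {U : Measure ℝ} (h0 : U (Iic 0) = 0)
    (hi : Integrable (fun t : ℝ => Real.log (1 + 1 / t)) U)
    (hlap : ∀ l : ℝ, 0 ≤ l → ∫ x, Real.exp (-(l * x)) ∂μ =
      Real.exp (-(a * l) - ∫ t, Real.log (1 + l / t) ∂U)) :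
    ∃ ν : ℕ → Measure ℝ, (∀ n, GammaSum (ν n)) ∧ ∀ f : BoundedContinuousFunction ℝ ℝ,
      Tendsto (fun n => ∫ x, f x ∂(ν n)) atTop (𝓝 (∫ x, f x ∂μ)) := by
  have key : ∀ n : ℕ, ∃ ρ, GammaSum ρ ∧ ∀ l : ℝ, 0 ≤ l → ∫ x, Real.exp (-(l * x)) ∂ρ =
      Real.exp (-(((n : ℝ) + 1) * Real.log (1 + (l * a) / ((n : ℝ) + 1)) +
        ∫ t, Real.log (1 + l * sf n t) ∂U)) := by
    intro n
    have hn : (0 : ℝ) < (n : ℝ) + 1 := by positivity
    have hx0 : ∀ x ∈ (sf n).range, 0 ≤ x := by
      intro x hx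
      obtain ⟨t, rfl⟩ := SimpleFunc.mem_range.1 hx
      exact sf_nonneg n t
    obtain ⟨ρ, hρ, hL⟩ := exists_gammaSum (sf n).range
      (fun x => if x = 0 then 0 else U.real ((sf n) ⁻¹' {x}))
      (fun x => if x = 0 then 1 else x⁻¹)
      (fun x _ => by
        show 0 ≤ if x = 0 then 0 else U.real ((sf n) ⁻¹' {x})
        split_ifs
        · exact le_rfl
        · exact measureReal_nonneg)
      (fun x hx => by
        show 0 < if x = 0 then 1 else x⁻¹
        split_ifs with h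
        · exact one_pos
        · exact inv_pos.2 (lt_of_le_of_ne (hx0 x hx) (Ne.symm h)))
      hn (div_pos hn ha)
    refine ⟨ρ, hρ, fun l hl => ?_⟩
    rw [hL l hl, sf_sum h0 hi n hl]
    congr 3
    · congr 2
      field_simp
    · refine Finset.sum_congr rfl fun x _ => ?_
      by_cases h : x = 0
      · simp [h]
      · simp only [if_neg h]
        rw [div_inv_eq_mul]
  choose ν hν hL using key
  refine ⟨ν, hν, tendsto_weak hμ (fun n => (hν n).prob) (fun n => (hν n).ae) fun k => ?_⟩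
  have hk : (0 : ℝ) ≤ k := Nat.cast_nonneg k
  simp_rw [fun n => hL n k hk]
  rw [hlap k hk]
  have h1 : Tendsto (fun n : ℕ => ((n : ℝ) + 1) * Real.log (1 + ((k : ℝ) * a) / ((n : ℝ) + 1))) atTop
      (𝓝 ((k : ℝ) * a)) :=
    (Real.tendsto_mul_log_one_add_div_atTop ((k : ℝ) * a)).comp
      (tendsto_natCast_atTop_atTop.atTop_add tendsto_const_nhds)
  have h2 := (h1.add (sf_lim h0 hi hk)).neg
  have h3 : -((k : ℝ) * a + ∫ t, Real.log (1 + (k : ℝ) / t) ∂U) =
      -(a * k) - ∫ t, Real.log (1 + (k : ℝ) / t) ∂U := by ring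
  rw [h3] at h2
  exact (Real.continuous_exp.tendsto _).comp h2

end Pool.Agent.Helper79.OWN.GGC
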