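import Pool.Agent.Helper79.OWN.GGC
import Pool.Agent.Helper7.GGC.Assembly
import Pool.Agent.Helper7.GGC.BetaMom
import Pool.Agent.Helper7.GGC.BetaLevy

/-!
MP_9f3825_pr: the two conditions of Thorin, the beta law, two-sided bounds for the Laplace transform
of the law of `B ^ (-s)`, the drift and the total mass of its Thorin measure.
-/

set_option autoImplicit false

open MeasureTheory ProbabilityTheory Filter Topology Set
open scoped ENNReal NNReal

namespace Pool.Agent.Helper79.OWN.GGC

/-! ### The two conditions of Thorin -/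

lemma lint_lt_top {U : Measure ℝ}
    (hi : Integrable (fun t : ℝ => Real.log (1 + 1 / t)) U) :
    ∫⁻ t, ENNReal.ofReal (2 * ‖Real.log (1 + 1 / t)‖) ∂U < ∞ := by
  have h1 : Integrable (fun t : ℝ => 2 * ‖Real.log (1 + 1 / t)‖) U := hi.norm.const_mul 2
  exact h1.lintegral_lt_top

lemma thorin_log {U : Measure ℝ}
    (hi : Integrable (fun t : ℝ => Real.log (1 + 1 / t)) U) :
    ∫⁻ t in Ioc 0 1, ENNReal.ofReal |Real.log t| ∂U < ∞ := by
  refine lt_of_le_of_lt ?_ (lint_lt_top hi)
  refine (setLIntegral_mono_ae ?_ ?_).trans (setLIntegral_le_lintegral (Ioc 0 1) _)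
  · exact Measurable.aemeasurable (by fun_prop)
  · filter_upwards with t ht
    apply ENNReal.ofReal_le_ofReal
    have ht0 : 0 < t := ht.1
    have e1 : Real.log t ≤ 0 := Real.log_nonpos ht0.le ht.2
    have e2 : 0 ≤ Real.log (1 + 1 / t) := log_nonneg' zero_le_one ht0
    rw [abs_of_nonpos e1, Real.norm_eq_abs, abs_of_nonneg e2, ← Real.log_inv, ← one_div]
    have e3 : Real.log (1 / t) ≤ Real.log (1 + 1 / t) :=
      Real.log_le_log (by positivity) (by linarith)
    linarith

lemma thorin_inv {U : Measure ℝ}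
    (hi : Integrable (fun t : ℝ => Real.log (1 + 1 / t)) U) :
    ∫⁻ t in Ioi 1, ENNReal.ofReal t⁻¹ ∂U < ∞ := by
  refine lt_of_le_of_lt ?_ (lint_lt_top hi)
  refine (setLIntegral_mono_ae ?_ ?_).trans (setLIntegral_le_lintegral (Ioi 1) _)
  · exact Measurable.aemeasurable (by fun_prop)
  · filter_upwards with t ht
    apply ENNReal.ofReal_le_ofReal
    have ht1 : 1 < t := ht
    have ht0 : 0 < t := by linarith
    have e2 : 0 ≤ Real.log (1 + 1 / t) := log_nonneg' zero_le_one ht0
    rw [Real.norm_eq_abs, abs_of_nonneg e2]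
    have e3 := Real.one_sub_inv_le_log_of_pos (show 0 < 1 + 1 / t by positivity)
    have e4 : 1 - (1 + 1 / t)⁻¹ = 1 / (t + 1) := by field_simp; ring
    have e5 : t⁻¹ ≤ 2 * (1 / (t + 1)) := by
      rw [inv_eq_one_div, mul_one_div, div_le_div_iff₀ ht0 (by linarith)]
      linarith
    linarith

/-! ### The beta law -/

/-- The theorem proved for the frozen statement (`Helper7.GGC`). -/
lemma frozen_form {a b s : ℝ} (ha : 0 < a) (hb : 0 < b) (hs : 1 ≤ s) :
    ∃ d : ℝ, 0 ≤ d ∧ ∃ U : Measure ℝ, U (Iic 0) = 0 ∧ ∀ l : ℝ, 0 < l →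
      Integrable (fun t : ℝ => Real.log (1 + l / t)) U ∧
      (∫ x in Ioo (0 : ℝ) 1, Real.exp (-(l * x ^ (-s))) * x ^ (a - 1) * (1 - x) ^ (b - 1)) =
        (∫ x in Ioo (0 : ℝ) 1, x ^ (a - 1) * (1 - x) ^ (b - 1)) *
          Real.exp (-(d * l) - ∫ t, Real.log (1 + l / t) ∂U) :=
  Pool.Agent.Helper7.GGC.final_of ha hb (by linarith)
    (Pool.Agent.Helper7.GGC.betw_integrable ha hb) (Pool.Agent.Helper7.GGC.betZ_pos ha hb)
    (fun _ hr => Pool.Agent.Helper7.GGC.bet_moment ha hb hr)
    (Pool.Agent.Helper7.GGC.cone_beta ha hb hs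
      (fun _ hr => Pool.Agent.Helper7.GGC.betM_le_one
        (Pool.Agent.Helper7.GGC.betw_integrable ha hb) (Pool.Agent.Helper7.GGC.betZ_pos ha hb)
        (fun _ hr => Pool.Agent.Helper7.GGC.bet_moment ha hb hr) hr)
      (fun _ hk => Pool.Agent.Helper7.GGC.beta_levy ha hb (by linarith) hk))

lemma beta_integral {α β : ℝ} (hα : 0 < α) (hβ : 0 < β) (g : ℝ → ℝ) :
    ∫ x, g x ∂(betaMeasure α β) =
      (beta α β)⁻¹ * ∫ x in Ioo (0 : ℝ) 1, g x * x ^ (α - 1) * (1 - x) ^ (β - 1) := by
  have hm : Measurable (betaPDF α β) := by unfold betaPDF; fun_prop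
  rw [betaMeasure, integral_withDensity_eq_integral_toReal_smul hm (by
    filter_upwards with x; exact ENNReal.ofReal_lt_top)]
  have e1 : ∀ x : ℝ, (betaPDF α β x).toReal • g x =
      (Ioo (0 : ℝ) 1).indicator (fun x => (beta α β)⁻¹ *
        (g x * x ^ (α - 1) * (1 - x) ^ (β - 1))) x := by
    intro x
    by_cases hx : x ∈ Ioo (0 : ℝ) 1
    · rw [indicator_of_mem hx, betaPDF, ENNReal.toReal_ofReal (betaPDFReal_pos hx.1 hx.2 hα hβ).le,
        smul_eq_mul, betaPDFReal, if_pos ⟨hx.1, hx.2⟩]
      ring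
    · rw [indicator_of_notMem hx, betaPDF, betaPDFReal, if_neg (by simpa using hx)]
      simp
  simp_rw [e1]
  rw [integral_indicator measurableSet_Ioo, integral_const_mul]

lemma beta_ae {α β : ℝ} : ∀ᵐ x ∂(betaMeasure α β), x ∈ Ioo (0 : ℝ) 1 := by
  have hm : Measurable (betaPDF α β) := by unfold betaPDF; fun_prop
  rw [betaMeasure, ae_withDensity_iff hm]
  filter_upwards with x hx
  rcases le_or_gt x 0 with h | h
  · exact absurd (betaPDF_eq_zero_of_nonpos h) hx
  · rcases le_or_gt 1 x with h' | h'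
    · exact absurd (betaPDF_eq_zero_of_one_le h') hx
    · exact ⟨h, h'⟩

lemma beta_norm {α β : ℝ} (hα : 0 < α) (hβ : 0 < β) :
    ∫ x in Ioo (0 : ℝ) 1, x ^ (α - 1) * (1 - x) ^ (β - 1) = beta α β := by
  have := isProbabilityMeasureBeta hα hβ
  have h1 := beta_integral hα hβ (fun _ => 1)
  have h2 : ∫ _x : ℝ, (1 : ℝ) ∂(betaMeasure α β) = 1 := by simp
  rw [h2] at h1
  simp only [one_mul] at h1
  have h3 := (beta_pos hα hβ).ne'
  field_simp at h1
  linarith

/-- The Laplace transform of the law of `B ^ (-s)`. -/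
lemma laplace_map {α β s : ℝ} (hα : 0 < α) (hβ : 0 < β) (l : ℝ) :
    ∫ x, Real.exp (-(l * x)) ∂((betaMeasure α β).map (fun x => x ^ (-s))) =
      (beta α β)⁻¹ * ∫ x in Ioo (0 : ℝ) 1,
        Real.exp (-(l * x ^ (-s))) * x ^ (α - 1) * (1 - x) ^ (β - 1) := by
  rw [integral_map (by fun_prop) (Measurable.aestronglyMeasurable (by fun_prop)),
    beta_integral hα hβ]

lemma laplace_main {α β s : ℝ} (hα : 0 < α) (hβ : 0 < β) (hs : 1 ≤ s) :
    ∃ a : ℝ, 0 ≤ a ∧ ∃ U : Measure ℝ, U (Iic 0) = 0 ∧
      Integrable (fun t : ℝ => Real.log (1 + 1 / t)) U ∧ ∀ l : ℝ, 0 ≤ l →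
      ∫ x, Real.exp (-(l * x)) ∂((betaMeasure α β).map (fun x => x ^ (-s))) =
        Real.exp (-(a * l) - ∫ t, Real.log (1 + l / t) ∂U) := by
  obtain ⟨a, ha, U, h0, h⟩ := frozen_form hα hβ hs
  refine ⟨a, ha, U, h0, (h 1 one_pos).1, fun l hl => ?_⟩
  have hb := (beta_pos hα hβ).ne'
  rcases hl.eq_or_lt with h1 | h1
  · subst h1
    have := isProbabilityMeasureBeta hα hβ
    have hp : IsProbabilityMeasure ((betaMeasure α β).map (fun x => x ^ (-s))) :=
      Measure.isProbabilityMeasure_map (by fun_prop)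
    simp
  · rw [laplace_map hα hβ, (h l h1).2, beta_norm hα hβ, ← mul_assoc, inv_mul_cancel₀ hb, one_mul]

/-! ### Bounds for the Laplace transform -/

lemma half_bounds {α x : ℝ} (hα : 0 < α) (h1 : 1 / 2 ≤ x) (h2 : x < 1) :
    (1 / 2 : ℝ) ^ α ≤ x ^ (α - 1) ∧ x ^ (α - 1) ≤ 2 := by
  have hx : 0 < x := by linarith
  have e1 : x ^ (α - 1) = x ^ α * x⁻¹ := by
    rw [Real.rpow_sub hx, Real.rpow_one, div_eq_mul_inv]
  have e2 : (1 / 2 : ℝ) ^ α ≤ x ^ α := Real.rpow_le_rpow (by norm_num) h1 hα.le
  have e3 : x ^ α ≤ 1 := Real.rpow_le_one hx.le h2.le hα.le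
  have e4 : 1 ≤ x⁻¹ := (one_le_inv₀ hx).2 h2.le
  have e5 : x⁻¹ ≤ 2 := by
    rw [inv_le_comm₀ hx two_pos]
    linarith
  have e6 : 0 ≤ x ^ α := Real.rpow_nonneg hx.le _
  rw [e1]
  constructor
  · nlinarith
  · nlinarith [inv_pos.2 hx]

lemma dens_int {α β : ℝ} (hα : 0 < α) (hβ : 0 < β) :
    IntegrableOn (fun x : ℝ => x ^ (α - 1) * (1 - x) ^ (β - 1)) (Ioo 0 1) := by
  by_contra h
  have h1 := beta_norm hα hβ
  rw [integral_undef h] at h1
  exact (beta_pos hα hβ).ne h1

lemma dens_int_exp {α β s l : ℝ} (hα : 0 < α) (hβ : 0 < β) (hl : 0 ≤ l) :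
    IntegrableOn (fun x : ℝ => Real.exp (-(l * x ^ (-s))) * x ^ (α - 1) * (1 - x) ^ (β - 1))
      (Ioo 0 1) := by
  refine Integrable.mono' (dens_int hα hβ) (Measurable.aestronglyMeasurable (by fun_prop)) ?_
  refine ae_restrict_of_forall_mem measurableSet_Ioo fun x hx => ?_
  have e1 : 0 ≤ x ^ (α - 1) := Real.rpow_nonneg hx.1.le _
  have e2 : 0 ≤ (1 - x) ^ (β - 1) := Real.rpow_nonneg (by linarith [hx.2]) _
  have e3 : Real.exp (-(l * x ^ (-s))) ≤ 1 := by
    rw [Real.exp_le_one_iff]
    have := mul_nonneg hl (Real.rpow_nonneg hx.1.le (-s))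
    linarith
  have e4 := Real.exp_pos (-(l * x ^ (-s)))
  rw [Real.norm_eq_abs, abs_of_nonneg (by positivity), mul_assoc]
  have := mul_nonneg e1 e2
  nlinarith

/-- the integral of the reflected power -/
lemma refl_pow {β e : ℝ} (hβ : 0 < β) (he : 0 ≤ e) :
    IntegrableOn (fun x : ℝ => (1 - x) ^ (β - 1)) (Ioo (1 - e) 1) ∧
      ∫ x in Ioo (1 - e) 1, (1 - x) ^ (β - 1) = e ^ β / β := by
  have hle : 1 - e ≤ (1 : ℝ) := by linarith
  have h0 : IntervalIntegrable (fun u : ℝ => u ^ (β - 1)) volume e 0 :=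
    (intervalIntegral.intervalIntegrable_rpow' (by linarith)).symm
  have h1 : IntervalIntegrable (fun x : ℝ => (1 - x) ^ (β - 1)) volume (1 - e) 1 := by
    have := h0.comp_sub_left 1
    simpa using this
  constructor
  · exact ((intervalIntegrable_iff_integrableOn_Ioc_of_le hle).1 h1).mono_set Ioo_subset_Ioc_self
  · rw [← integral_Ioc_eq_integral_Ioo, ← intervalIntegral.integral_of_le hle,
      intervalIntegral.integral_comp_sub_left (fun u : ℝ => u ^ (β - 1)) 1]
    have e1 : (1 : ℝ) - 1 = 0 := by ring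
    have e2 : (1 : ℝ) - (1 - e) = e := by ring
    rw [e1, e2, integral_rpow (Or.inl (by linarith)), sub_add_cancel, Real.zero_rpow hβ.ne',
      sub_zero]

/-- lower bound -/
lemma laplace_lower {α β s : ℝ} (hα : 0 < α) (hβ : 0 < β) (hs : 1 ≤ s) :
    ∃ c : ℝ, 0 < c ∧ ∀ l : ℝ, 2 ≤ l → c * (Real.exp (-l) * l ^ (-β)) ≤
      ∫ x in Ioo (0 : ℝ) 1, Real.exp (-(l * x ^ (-s))) * x ^ (α - 1) * (1 - x) ^ (β - 1) := by
  refine ⟨Real.exp (-(2 * s * Real.exp s)) * (1 / 2 : ℝ) ^ α / β, by positivity, fun l hl => ?_⟩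
  have hl0 : 0 < l := by linarith
  have he : 0 < 1 / l := by positivity
  have he2 : 1 / l ≤ 1 / 2 := one_div_le_one_div_of_le two_pos hl
  obtain ⟨hi, hv⟩ := refl_pow (e := 1 / l) hβ he.le
  have hsub : Ioo (1 - 1 / l) 1 ⊆ Ioo (0 : ℝ) 1 := Ioo_subset_Ioo_left (by linarith)
  have hint := dens_int_exp (s := s) hα hβ hl0.le
  calc Real.exp (-(2 * s * Real.exp s)) * (1 / 2 : ℝ) ^ α / β * (Real.exp (-l) * l ^ (-β))
      = ∫ x in Ioo (1 - 1 / l) 1, (Real.exp (-l) * Real.exp (-(2 * s * Real.exp s)) *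
          (1 / 2 : ℝ) ^ α) * (1 - x) ^ (β - 1) := by
        rw [integral_const_mul, hv, one_div l, Real.inv_rpow hl0.le, Real.rpow_neg hl0.le]
        ring
    _ ≤ ∫ x in Ioo (1 - 1 / l) 1, Real.exp (-(l * x ^ (-s))) * x ^ (α - 1) *
          (1 - x) ^ (β - 1) := by
        apply setIntegral_mono_on (hi.const_mul _) (hint.mono_set hsub) measurableSet_Ioo
        intro x hx
        have hx1 : 1 / 2 ≤ x := by linarith [hx.1]
        have hx0 : 0 < x := by linarith
        have f1 := (half_bounds hα hx1 hx.2).1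
        have f2 : 0 ≤ (1 - x) ^ (β - 1) := Real.rpow_nonneg (by linarith [hx.2]) _
        -- the exponent
        have g1 : -Real.log x ≤ 2 * (1 - x) := by
          have g2 := Real.one_sub_inv_le_log_of_pos hx0
          have g3 : x⁻¹ - 1 ≤ 2 * (1 - x) := by
            rw [inv_eq_one_div, sub_le_iff_le_add, div_le_iff₀ hx0]
            nlinarith [hx.2]
          linarith
        have g4 : x ^ (-s) ≤ 1 + 2 * s * Real.exp s * (1 - x) := by
          have g5 : x ^ (-s) = Real.exp (s * (-Real.log x)) := by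
            rw [Real.rpow_def_of_pos hx0]; congr 1; ring
          have g6 : s * (-Real.log x) ≤ s * (2 * (1 - x)) :=
            mul_le_mul_of_nonneg_left g1 (by linarith)
          have g7 : Real.exp (s * (2 * (1 - x))) ≤
              1 + s * (2 * (1 - x)) * Real.exp (s * (2 * (1 - x))) := by
            have g8 := Real.add_one_le_exp (-(s * (2 * (1 - x))))
            have g9 := Real.exp_pos (s * (2 * (1 - x)))
            have g10 : Real.exp (-(s * (2 * (1 - x)))) * Real.exp (s * (2 * (1 - x))) = 1 := by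
              rw [← Real.exp_add]; simp
            nlinarith
          have g11 : Real.exp (s * (2 * (1 - x))) ≤ Real.exp s := by
            apply Real.exp_le_exp.2
            nlinarith
          have g12 : 0 ≤ s * (2 * (1 - x)) := mul_nonneg (by linarith) (by linarith [hx.2])
          have g13 := mul_le_mul_of_nonneg_left g11 g12
          rw [g5]
          have g14 := Real.exp_le_exp.2 g6
          nlinarith
        have g15 : -l - 2 * s * Real.exp s ≤ -(l * x ^ (-s)) := by
          have g16 : l * (1 - x) ≤ 1 := by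
            have : 1 - x ≤ 1 / l := by linarith [hx.1]
            calc l * (1 - x) ≤ l * (1 / l) := mul_le_mul_of_nonneg_left this hl0.le
              _ = 1 := by field_simp
          have g17 : 0 ≤ 2 * s * Real.exp s := by positivity
          have g18 := mul_le_mul_of_nonneg_left g4 hl0.le
          nlinarith [mul_le_mul_of_nonneg_left g16 g17]
        have g19 : Real.exp (-l) * Real.exp (-(2 * s * Real.exp s)) ≤ Real.exp (-(l * x ^ (-s))) := by
          rw [← Real.exp_add]
          apply Real.exp_le_exp.2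
          linarith
        apply mul_le_mul_of_nonneg_right _ f2
        exact mul_le_mul g19 f1 (by positivity) (by positivity)
    _ ≤ _ := by
        apply setIntegral_mono_set hint
        · refine ae_restrict_of_forall_mem measurableSet_Ioo fun x hx => ?_
          have e1 : 0 ≤ x ^ (α - 1) := Real.rpow_nonneg hx.1.le _
          have e2 : 0 ≤ (1 - x) ^ (β - 1) := Real.rpow_nonneg (by linarith [hx.2]) _
          show (0 : ℝ) ≤ _
          positivity
        · exact hsub.eventuallyLE

/-- upper bound -/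
lemma laplace_upper {α β s : ℝ} (hα : 0 < α) (hβ : 0 < β) (hs : 1 ≤ s) :
    ∃ C : ℝ, 0 < C ∧ ∀ᶠ l : ℝ in atTop,
      ∫ x in Ioo (0 : ℝ) 1, Real.exp (-(l * x ^ (-s))) * x ^ (α - 1) * (1 - x) ^ (β - 1) ≤
        C * (Real.exp (-l) * l ^ (-β)) := by
  have hB := beta_pos hα hβ
  have hG := Real.Gamma_pos_of_pos hβ
  refine ⟨2 * Real.Gamma β + beta α β, by positivity, ?_⟩
  have ht := tendsto_rpow_mul_exp_neg_mul_atTop_nhds_zero β (1 / 2) (by norm_num)
  filter_upwards [ht.eventually_le_const (show (0 : ℝ) < 1 by norm_num), eventually_ge_atTop 1]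
    with l hle hl1
  have hl0 : 0 < l := by linarith
  have hint := dens_int_exp (s := s) hα hβ hl0.le
  -- the reflected gamma integral
  have hgi : IntegrableOn (fun u : ℝ => u ^ (β - 1) * Real.exp (-(l * u))) (Ioi 0) := by
    by_contra h
    have h1 := Real.integral_rpow_mul_exp_neg_mul_Ioi hβ hl0
    rw [integral_undef h] at h1
    have h2 : 0 < (1 / l) ^ β * Real.Gamma β := by positivity
    exact h2.ne h1
  have h01 : (0 : ℝ) ≤ 1 := zero_le_one
  have hiv : IntervalIntegrable (fun u : ℝ => u ^ (β - 1) * Real.exp (-(l * u))) volume 0 1 :=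
    (intervalIntegrable_iff_integrableOn_Ioc_of_le h01).2 (hgi.mono_set Ioc_subset_Ioi_self)
  have hrv : IntegrableOn (fun x : ℝ => (1 - x) ^ (β - 1) * Real.exp (-(l * (1 - x)))) (Ioo 0 1) := by
    have h1 := (hiv.comp_sub_left 1).symm
    have h2 : IntervalIntegrable (fun x : ℝ => (1 - x) ^ (β - 1) * Real.exp (-(l * (1 - x))))
        volume 0 1 := by simpa using h1
    exact ((intervalIntegrable_iff_integrableOn_Ioc_of_le h01).1 h2).mono_set Ioo_subset_Ioc_self
  have hrl : ∫ x in Ioo (0 : ℝ) 1, (1 - x) ^ (β - 1) * Real.exp (-(l * (1 - x))) ≤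
      Real.Gamma β * l ^ (-β) := by
    rw [← integral_Ioc_eq_integral_Ioo, ← intervalIntegral.integral_of_le h01,
      intervalIntegral.integral_comp_sub_left (fun u : ℝ => u ^ (β - 1) * Real.exp (-(l * u))) 1]
    have e1 : (1 : ℝ) - 1 = 0 := by ring
    have e2 : (1 : ℝ) - 0 = 1 := by ring
    rw [e1, e2, intervalIntegral.integral_of_le h01]
    have e3 : Real.Gamma β * l ^ (-β) = ∫ u in Ioi (0 : ℝ), u ^ (β - 1) * Real.exp (-(l * u)) := by
      rw [Real.integral_rpow_mul_exp_neg_mul_Ioi hβ hl0, one_div, Real.inv_rpow hl0.le,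
        Real.rpow_neg hl0.le, mul_comm]
    rw [e3]
    apply setIntegral_mono_set hgi
    · refine ae_restrict_of_forall_mem measurableSet_Ioi fun u hu => ?_
      have hu0 : 0 < u := hu
      show (0 : ℝ) ≤ _
      positivity
    · exact Ioc_subset_Ioi_self.eventuallyLE
  have hsm : Real.exp (-(l / 2)) ≤ l ^ (-β) := by
    have e1 : 0 < l ^ β := Real.rpow_pos_of_pos hl0 _
    rw [Real.rpow_neg hl0.le, ← one_div, le_div_iff₀ e1, mul_comm]
    have e2 : -(1 / 2 : ℝ) * l = -(l / 2) := by ring
    rwa [e2] at hle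
  calc ∫ x in Ioo (0 : ℝ) 1, Real.exp (-(l * x ^ (-s))) * x ^ (α - 1) * (1 - x) ^ (β - 1)
      ≤ ∫ x in Ioo (0 : ℝ) 1, (2 * Real.exp (-l) * ((1 - x) ^ (β - 1) *
          Real.exp (-(l * (1 - x)))) + (Real.exp (-l) * Real.exp (-(l / 2))) *
            (x ^ (α - 1) * (1 - x) ^ (β - 1))) := by
        apply setIntegral_mono_on hint ((hrv.const_mul _).add ((dens_int hα hβ).const_mul _))
          measurableSet_Ioo
        intro x hx
        have hx0 := hx.1
        have f1 : 0 ≤ x ^ (α - 1) := Real.rpow_nonneg hx0.le _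
        have f2 : 0 ≤ (1 - x) ^ (β - 1) := Real.rpow_nonneg (by linarith [hx.2]) _
        have f3 : 1 + (1 - x) ≤ x ^ (-s) := by
          have g1 : x⁻¹ ≤ x ^ (-s) := by
            rw [← Real.rpow_neg_one]
            exact Real.rpow_le_rpow_of_exponent_ge hx0 hx.2.le (by linarith)
          have g2 : 1 + (1 - x) ≤ x⁻¹ := by
            rw [inv_eq_one_div, le_div_iff₀ hx0]
            nlinarith [sq_nonneg (x - 1)]
          linarith
        have f4 : Real.exp (-(l * x ^ (-s))) ≤ Real.exp (-l) * Real.exp (-(l * (1 - x))) := by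
          rw [← Real.exp_add]
          apply Real.exp_le_exp.2
          have := mul_le_mul_of_nonneg_left f3 hl0.le
          linarith
        have f5 : Real.exp (-(l * x ^ (-s))) * x ^ (α - 1) ≤
            2 * Real.exp (-l) * Real.exp (-(l * (1 - x))) +
              Real.exp (-l) * Real.exp (-(l / 2)) * x ^ (α - 1) := by
          rcases le_or_gt (1 / 2) x with h | h
          · have k1 := (half_bounds hα h hx.2).2
            have k2 : Real.exp (-(l * x ^ (-s))) * x ^ (α - 1) ≤
                (Real.exp (-l) * Real.exp (-(l * (1 - x)))) * 2 :=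
              mul_le_mul f4 k1 f1 (by positivity)
            have k3 : 0 ≤ Real.exp (-l) * Real.exp (-(l / 2)) * x ^ (α - 1) := by positivity
            linarith
          · have k1 : Real.exp (-(l * (1 - x))) ≤ Real.exp (-(l / 2)) := by
              apply Real.exp_le_exp.2
              nlinarith
            have k2 := mul_le_mul_of_nonneg_left k1 (Real.exp_pos (-l)).le
            have k3 := mul_le_mul_of_nonneg_right (f4.trans k2) f1
            have k4 : 0 ≤ 2 * Real.exp (-l) * Real.exp (-(l * (1 - x))) := by positivity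
            linarith
        have f6 := mul_le_mul_of_nonneg_right f5 f2
        refine f6.trans (le_of_eq ?_)
        simp only [Pi.add_apply]
        ring
    _ = 2 * Real.exp (-l) * (∫ x in Ioo (0 : ℝ) 1, (1 - x) ^ (β - 1) *
          Real.exp (-(l * (1 - x)))) + (Real.exp (-l) * Real.exp (-(l / 2))) * beta α β := by
        rw [integral_add (hrv.const_mul _) ((dens_int hα hβ).const_mul _), integral_const_mul,
          integral_const_mul, beta_norm hα hβ]
    _ ≤ 2 * Real.exp (-l) * (Real.Gamma β * l ^ (-β)) +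
          (Real.exp (-l) * l ^ (-β)) * beta α β := by
        have e1 := Real.exp_pos (-l)
        have k1 := mul_le_mul_of_nonneg_left hrl (show 0 ≤ 2 * Real.exp (-l) by positivity)
        have k2 := mul_le_mul_of_nonneg_right (mul_le_mul_of_nonneg_left hsm e1.le) hB.le
        exact add_le_add k1 k2
    _ = _ := by ring

/-! ### The drift and the total mass of the Thorin measure -/

/-- a bounded multiple of the logarithm -/
lemma nonpos_of_log {d K : ℝ} (h : ∀ᶠ l : ℝ in atTop, d * Real.log l ≤ K) : d ≤ 0 := by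
  by_contra hd
  push Not at hd
  have h1 : Tendsto (fun l : ℝ => d * Real.log l) atTop atTop :=
    Real.tendsto_log_atTop.const_mul_atTop hd
  obtain ⟨l, h2, h3⟩ := (h.and (h1.eventually_gt_atTop K)).exists
  linarith

lemma psi_nonneg {U : Measure ℝ} (h0 : U (Iic 0) = 0) {l : ℝ} (hl : 0 ≤ l) :
    0 ≤ ∫ t, Real.log (1 + l / t) ∂U := by
  apply integral_nonneg_of_ae
  filter_upwards [ae_pos h0] with t ht using log_nonneg' hl ht

/-- `ψ(l) = o(l)` -/
lemma psi_div {U : Measure ℝ} (h0 : U (Iic 0) = 0)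
    (hi : Integrable (fun t : ℝ => Real.log (1 + 1 / t)) U) :
    Tendsto (fun l : ℝ => (∫ t, Real.log (1 + l / t) ∂U) / l) atTop (𝓝 0) := by
  have e0 : (0 : ℝ) = ∫ _t : ℝ, (0 : ℝ) ∂U := by simp
  rw [e0]
  simp_rw [← integral_div]
  apply tendsto_integral_filter_of_dominated_convergence (fun t => Real.log (1 + 1 / t))
  · filter_upwards with l
    exact Measurable.aestronglyMeasurable (by fun_prop)
  · filter_upwards [eventually_ge_atTop 1] with l hl
    filter_upwards [ae_pos h0] with t ht
    have hl0 : 0 < l := by linarith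
    have h1 := log_nonneg' hl0.le ht
    rw [Real.norm_eq_abs, abs_of_nonneg (by positivity), div_le_iff₀ hl0]
    have h2 : 1 + l / t ≤ (1 + 1 / t) ^ l := by
      have h3 : 1 + l * (1 / t) ≤ (1 + 1 / t) ^ l := by
        apply one_add_mul_self_le_rpow_one_add _ hl
        have : 0 < 1 / t := by positivity
        linarith
      rwa [mul_one_div] at h3
    have h5 : 0 < 1 + l / t := by positivity
    calc Real.log (1 + l / t) ≤ Real.log ((1 + 1 / t) ^ l) := Real.log_le_log h5 h2
      _ = l * Real.log (1 + 1 / t) := Real.log_rpow (by positivity) _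
      _ = _ := mul_comm _ _
  · exact hi
  · filter_upwards [ae_pos h0] with t ht
    -- `log (1 + l / t) / l → 0`
    have h1 : Tendsto (fun l : ℝ => Real.log (1 + l / t) / l) atTop (𝓝 0) := by
      have h2 : Tendsto (fun l : ℝ => Real.log l / l) atTop (𝓝 0) := by
        have := Real.isLittleO_log_id_atTop.tendsto_div_nhds_zero
        simpa using this
      have h3 : Tendsto (fun l : ℝ => Real.log (1 + 1 / t) / l) atTop (𝓝 0) :=
        tendsto_const_nhds.div_atTop tendsto_id
      have h4 := h2.add h3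
      rw [add_zero] at h4
      refine squeeze_zero' ?_ ?_ h4
      · filter_upwards [eventually_ge_atTop 1] with l hl
        have := log_nonneg' (by linarith : (0 : ℝ) ≤ l) ht
        have hl0 : 0 < l := by linarith
        positivity
      · filter_upwards [eventually_ge_atTop 1] with l hl
        have hl0 : 0 < l := by linarith
        rw [← add_div]
        apply div_le_div_of_nonneg_right _ hl0.le
        rw [← Real.log_mul hl0.ne' (by positivity)]
        apply Real.log_le_log (by positivity)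
        have : l * (1 + 1 / t) = l + l / t := by ring
        linarith
    exact h1

/-- The drift is `1` and the total mass of the Thorin measure is `β`. -/
lemma drift_mass {α β s a : ℝ} (hα : 0 < α) (hβ : 0 < β) (hs : 1 ≤ s)
    {U : Measure ℝ} (h0 : U (Iic 0) = 0)
    (hi : Integrable (fun t : ℝ => Real.log (1 + 1 / t)) U)
    (hlap : ∀ l : ℝ, 0 ≤ l →
      ∫ x, Real.exp (-(l * x)) ∂((betaMeasure α β).map (fun x => x ^ (-s))) =
        Real.exp (-(a * l) - ∫ t, Real.log (1 + l / t) ∂U)) :
    a = 1 ∧ U univ = ENNReal.ofReal β := by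
  obtain ⟨c, hc, hlow⟩ := laplace_lower (s := s) hα hβ hs
  obtain ⟨C, hC, hup⟩ := laplace_upper (s := s) hα hβ hs
  have hB := beta_pos hα hβ
  -- the two bounds for `ψ`
  have b1 : ∀ᶠ l : ℝ in atTop, ∫ t, Real.log (1 + l / t) ∂U ≤
      (1 - a) * l + β * Real.log l - Real.log ((beta α β)⁻¹ * c) := by
    filter_upwards [eventually_ge_atTop 2] with l hl
    have hl0 : 0 < l := by linarith
    have h1 := mul_le_mul_of_nonneg_left (hlow l hl) (inv_pos.2 hB).le
    rw [← laplace_map hα hβ, hlap l hl0.le] at h1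
    have h2 : 0 < l ^ (-β) := Real.rpow_pos_of_pos hl0 _
    have h3 := Real.log_le_log (by positivity) h1
    rw [Real.log_exp, ← mul_assoc, ← mul_assoc, Real.log_mul (by positivity) h2.ne',
      Real.log_mul (by positivity) (Real.exp_pos _).ne', Real.log_exp, Real.log_rpow hl0] at h3
    linarith
  have b2 : ∀ᶠ l : ℝ in atTop, (1 - a) * l + β * Real.log l - Real.log ((beta α β)⁻¹ * C) ≤
      ∫ t, Real.log (1 + l / t) ∂U := by
    filter_upwards [hup, eventually_ge_atTop 2] with l hu hl
    have hl0 : 0 < l := by linarith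
    have h1 := mul_le_mul_of_nonneg_left hu (inv_pos.2 hB).le
    rw [← laplace_map hα hβ, hlap l hl0.le] at h1
    have h2 : 0 < l ^ (-β) := Real.rpow_pos_of_pos hl0 _
    have h3 := Real.log_le_log (Real.exp_pos _) h1
    rw [Real.log_exp, ← mul_assoc, ← mul_assoc, Real.log_mul (by positivity) h2.ne',
      Real.log_mul (by positivity) (Real.exp_pos _).ne', Real.log_exp, Real.log_rpow hl0] at h3
    linarith
  -- the drift
  have hlog : Tendsto (fun l : ℝ => Real.log l / l) atTop (𝓝 0) := by
    have := Real.isLittleO_log_id_atTop.tendsto_div_nhds_zero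
    simpa using this
  have hinv : ∀ K : ℝ, Tendsto (fun l : ℝ => K / l) atTop (𝓝 0) := fun K =>
    tendsto_const_nhds.div_atTop tendsto_id
  have hlin : ∀ K : ℝ, Tendsto (fun l : ℝ => ((1 - a) * l + β * Real.log l - K) / l) atTop
      (𝓝 (1 - a)) := by
    intro K
    have h1 : Tendsto (fun l : ℝ => (1 - a) + β * (Real.log l / l) - K / l) atTop
        (𝓝 ((1 - a) + β * 0 - 0)) :=
      ((hlog.const_mul β).const_add (1 - a)).sub (hinv K)
    rw [mul_zero, add_zero, sub_zero] at h1
    refine h1.congr' ?_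
    filter_upwards [eventually_gt_atTop 0] with l hl
    field_simp
  have ha : a = 1 := by
    have h1 : 0 ≤ 1 - a := by
      refine le_of_tendsto_of_tendsto (psi_div h0 hi) (hlin (Real.log ((beta α β)⁻¹ * c))) ?_
      filter_upwards [b1, eventually_gt_atTop 0] with l h hl
      exact div_le_div_of_nonneg_right h hl.le
    have h2 : 1 - a ≤ 0 := by
      refine le_of_tendsto_of_tendsto (hlin (Real.log ((beta α β)⁻¹ * C))) (psi_div h0 hi) ?_
      filter_upwards [b2, eventually_gt_atTop 0] with l h hl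
      exact div_le_div_of_nonneg_right h hl.le
    linarith
  refine ⟨ha, ?_⟩
  subst ha
  -- upper bound for the mass
  have hle : ∀ n : ℕ, U (Iic ((n : ℝ) + 1)) ≤ ENNReal.ofReal β := by
    intro n
    have hT : (0 : ℝ) < (n : ℝ) + 1 := by positivity
    have hfin := mass_lt_top h0 hi ((n : ℝ) + 1)
    have key : U.real (Iic ((n : ℝ) + 1)) - β ≤ 0 := by
      apply nonpos_of_log (K := U.real (Iic ((n : ℝ) + 1)) * Real.log ((n : ℝ) + 1) -
        Real.log ((beta α β)⁻¹ * c))
      filter_upwards [b1, eventually_ge_atTop 1] with l h hl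
      have hl0 : 0 < l := by linarith
      have h1 : U.real (Iic ((n : ℝ) + 1)) * Real.log (1 + l / ((n : ℝ) + 1)) ≤
          ∫ t, Real.log (1 + l / t) ∂U := by
        have hI := integrable_log h0 hi hl0.le
        have h2 : ∫ _t in Iic ((n : ℝ) + 1), Real.log (1 + l / ((n : ℝ) + 1)) ∂U ≤
            ∫ t in Iic ((n : ℝ) + 1), Real.log (1 + l / t) ∂U := by
          apply setIntegral_mono_on_ae _ hI.integrableOn measurableSet_Iic
          · filter_upwards [ae_pos h0] with t ht htT
            apply Real.log_le_log (by positivity)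
            have := div_le_div_of_nonneg_left hl0.le ht htT
            linarith
          · exact integrableOn_const hfin.ne
        rw [setIntegral_const, smul_eq_mul] at h2
        refine h2.trans (setIntegral_le_integral hI ?_)
        filter_upwards [ae_pos h0] with t ht using log_nonneg' hl0.le ht
      have h3 : Real.log l - Real.log ((n : ℝ) + 1) ≤ Real.log (1 + l / ((n : ℝ) + 1)) := by
        rw [← Real.log_div hl0.ne' hT.ne']
        apply Real.log_le_log (by positivity)
        linarith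
      have h4 := mul_le_mul_of_nonneg_left h3 (measureReal_nonneg (μ := U) (s := Iic ((n : ℝ) + 1)))
      linarith
    rw [← ofReal_measureReal hfin.ne]
    exact ENNReal.ofReal_le_ofReal (by linarith)
  have hle' : U univ ≤ ENNReal.ofReal β := by
    have h1 : (univ : Set ℝ) = ⋃ n : ℕ, Iic ((n : ℝ) + 1) := by
      ext t
      simp only [mem_univ, mem_iUnion, mem_Iic, true_iff]
      obtain ⟨n, hn⟩ := exists_nat_ge t
      exact ⟨n, by linarith⟩
    have hmono : Monotone fun n : ℕ => Iic ((n : ℝ) + 1) := by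
      intro m n hmn
      apply Iic_subset_Iic.2
      have : (m : ℝ) ≤ n := Nat.cast_le.2 hmn
      linarith
    rw [h1, hmono.measure_iUnion]
    exact iSup_le hle
  apply le_antisymm hle'
  -- lower bound for the mass
  have hfin : U univ ≠ ∞ := (hle'.trans_lt ENNReal.ofReal_lt_top).ne
  have : IsFiniteMeasure U := ⟨lt_top_iff_ne_top.2 hfin⟩
  have key : β - U.real univ ≤ 0 := by
    apply nonpos_of_log (K := U.real univ * Real.log 2 + (∫ t, Real.log (1 + 1 / t) ∂U) +
      Real.log ((beta α β)⁻¹ * C))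
    filter_upwards [b2, eventually_ge_atTop 1] with l h hl
    have hl0 : 0 < l := by linarith
    have hI := integrable_log h0 hi hl0.le
    have h1 : ∫ t, Real.log (1 + l / t) ∂U ≤ ∫ t, (Real.log (1 + l) + Real.log (1 + 1 / t)) ∂U := by
      apply integral_mono_ae hI ((integrable_const _).add hi)
      filter_upwards [ae_pos h0] with t ht
      show Real.log (1 + l / t) ≤ Real.log (1 + l) + Real.log (1 + 1 / t)
      rw [← Real.log_mul (by positivity) (by positivity)]
      apply Real.log_le_log (by positivity)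
      have : (1 + l) * (1 + 1 / t) = 1 + l / t + (l + 1 / t) := by ring
      have : 0 < l + 1 / t := by positivity
      linarith
    rw [integral_add (integrable_const _) hi, integral_const, smul_eq_mul] at h1
    have h2 : Real.log (1 + l) ≤ Real.log l + Real.log 2 := by
      rw [← Real.log_mul hl0.ne' two_ne_zero]
      apply Real.log_le_log (by positivity)
      linarith
    have h3 := mul_le_mul_of_nonneg_left h2 (measureReal_nonneg (μ := U) (s := univ))
    linarith
  rw [← ofReal_measureReal hfin]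
  exact ENNReal.ofReal_le_ofReal (by linarith)

end Pool.Agent.Helper79.OWN.GGC
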